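import Mathlib

namespace Pool.Agent.Results.MP_a78fe8_nt.AlmostAllPolynomials

/-- The digit `a_{k+1}` (`k ≥ 0`) of the base-`b` expansion of `r ∈ [0,1)`:
`⌊r b^{k+1}⌋ mod b`. -/
noncomputable def digit (b : ℕ) (r : ℝ) (k : ℕ) : ℕ := ⌊r * (b : ℝ) ^ (k + 1)⌋₊ % b

/-- `a` is the coefficient vector of an integer polynomial `a_0 + a_1 X + ... + a_d X^d` with all
coefficients at most `H` in absolute value. -/
def Box (d H : ℕ) : Set (Fin (d + 1) → ℤ) := {a | ∀ i, |a i| ≤ (H : ℤ)}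

/-! ### From words to digits in base `B = b ^ n` -/

/-- Some word of length `n` over `{0, ..., b-1}` does not occur in the base-`b` expansion of `r` as
`a_{i+1} ... a_{i+n}` with `b ^ i ≤ H`. -/
def Misses (b n H : ℕ) (r : ℝ) : Prop :=
  ∃ w : Fin n → ℕ, (∀ j, w j < b) ∧
    ∀ i : ℕ, b ^ i ≤ H → ∃ j : Fin n, digit b r (i + (j : ℕ)) ≠ w j

lemma floor_shift {b : ℕ} (hb : 1 ≤ b) (r : ℝ) (k m : ℕ) :
    ⌊r * (b : ℝ) ^ k⌋₊ = ⌊r * (b : ℝ) ^ (k + m)⌋₊ / b ^ m := by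
  have hb0 : (b : ℝ) ≠ 0 := by
    have : (1 : ℝ) ≤ b := by exact_mod_cast hb
    linarith
  rw [← Nat.floor_div_natCast]
  congr 1
  push_cast
  rw [pow_add]
  field_simp

lemma exists_digit {b n H : ℕ} (hb : 2 ≤ b) {r : ℝ} (h : Misses b n H r) :
    ∃ W < b ^ n, ∀ k : ℕ, (b ^ n) ^ k ≤ H → ⌊r * ((b ^ n : ℕ) : ℝ) ^ (k + 1)⌋₊ % (b ^ n) ≠ W := by
  obtain ⟨w, hw, hav⟩ := h
  set W : Fin (b ^ n) := finFunctionFinEquiv (fun j : Fin n => ⟨w (Fin.rev j), hw _⟩) with hW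
  refine ⟨W, W.2, fun k hkH hk => ?_⟩
  obtain ⟨j, hj⟩ := hav (n * k) (by rw [pow_mul]; exact hkH)
  apply hj
  have h1 : finFunctionFinEquiv.symm W = (fun j : Fin n => (⟨w (Fin.rev j), hw _⟩ : Fin b)) := by
    rw [hW, Equiv.symm_apply_apply]
  have h2 := congrArg (fun f => ((f (Fin.rev j) : Fin b) : ℕ)) h1
  simp only [Fin.rev_rev] at h2
  rw [← h2]
  have h3 : ((finFunctionFinEquiv.symm W (Fin.rev j) : Fin b) : ℕ)
      = (W : ℕ) / b ^ (Fin.rev j : ℕ) % b := by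
    simp [finFunctionFinEquiv]
  rw [h3, ← hk]
  have hjn := j.2
  have hrev : (Fin.rev j : ℕ) = n - (j + 1) := Fin.val_rev j
  set m := n - ((j : ℕ) + 1) with hm
  rw [hrev]
  have hpow : ((b ^ n : ℕ) : ℝ) ^ (k + 1) = (b : ℝ) ^ ((n * k + j + 1) + m) := by
    push_cast
    rw [← pow_mul]
    congr 1
    have : n * (k + 1) = n * k + n := by ring
    omega
  rw [hpow]
  unfold digit
  rw [floor_shift (by omega) r (n * k + j + 1) m]
  set X := ⌊r * (b : ℝ) ^ ((n * k + j + 1) + m)⌋₊ with hX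
  have hbn : b ^ n = b ^ m * b ^ ((j : ℕ) + 1) := by
    rw [← pow_add]
    congr 1
    omega
  rw [hbn, Nat.mod_mul_right_div_self, Nat.mod_mod_of_dvd]
  exact dvd_pow_self b (by omega)

/-! ### Covering the numbers whose base-`B` digits avoid `W` -/

/-- The naturals below `B ^ k` with `k` base-`B` digits different from `W`. -/
def V (B W : ℕ) : ℕ → Finset ℕ
  | 0 => {0}
  | k + 1 => (V B W k ×ˢ (Finset.range B).erase W).image (fun p => p.1 * B + p.2)

lemma card_V {B W : ℕ} (hW : W < B) (k : ℕ) : (V B W k).card ≤ (B - 1) ^ k := by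
  induction k with
  | zero => simp [V]
  | succ k ih =>
    refine (Finset.card_image_le).trans ?_
    rw [Finset.card_product, Finset.card_erase_of_mem (Finset.mem_range.2 hW), Finset.card_range,
      pow_succ]
    exact Nat.mul_le_mul_right _ ih

lemma mem_V {B W : ℕ} (hB : 1 ≤ B) {r : ℝ} (hr1 : r < 1) (k : ℕ)
    (h : ∀ l < k, ⌊r * (B : ℝ) ^ (l + 1)⌋₊ % B ≠ W) : ⌊r * (B : ℝ) ^ k⌋₊ ∈ V B W k := by
  induction k with
  | zero => simp [V, Nat.floor_eq_zero.2 hr1]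
  | succ k ih =>
    have ih := ih (fun l hl => h l (by omega))
    have h := h k (by omega)
    rw [V, Finset.mem_image]
    refine ⟨(⌊r * (B : ℝ) ^ k⌋₊, ⌊r * (B : ℝ) ^ (k + 1)⌋₊ % B), ?_, ?_⟩
    · rw [Finset.mem_product]
      exact ⟨ih, Finset.mem_erase.2 ⟨h, Finset.mem_range.2 (Nat.mod_lt _ hB)⟩⟩
    · have := floor_shift hB r k 1
      rw [pow_one] at this
      simp only
      rw [this]
      exact Nat.div_add_mod' _ _

/-! ### The values at the cylinder end points -/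

lemma pow_diff {r s : ℝ} (hs : 0 ≤ s) (hsr : s ≤ r) (hr : r ≤ 1) (i : ℕ) :
    r ^ i - s ^ i ≤ i * (r - s) := by
  induction i with
  | zero => simp
  | succ i ih =>
    have h1 : s ^ i ≤ 1 := pow_le_one₀ hs (hsr.trans hr)
    have h2 : 0 ≤ r ^ i - s ^ i := sub_nonneg.2 (pow_le_pow_left₀ hs hsr i)
    have h3 : r ^ (i + 1) - s ^ (i + 1) = r * (r ^ i - s ^ i) + s ^ i * (r - s) := by ring
    rw [h3]
    have h4 : r * (r ^ i - s ^ i) ≤ r ^ i - s ^ i := by nlinarith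
    have h5 : s ^ i * (r - s) ≤ r - s := by nlinarith
    push_cast
    linarith

lemma value_small {d H : ℕ} {a : Fin (d + 1) → ℤ} (ha : a ∈ Box d H) {r s : ℝ} (hs : 0 ≤ s)
    (hsr : s ≤ r) (hr : r ≤ 1) (h0 : ∑ i, (a i : ℝ) * r ^ (i : ℕ) = 0) (hH : (H : ℝ) * (r - s) ≤ 1) :
    |∑ i, (a i : ℝ) * s ^ (i : ℕ)| ≤ ((d + 1) ^ 2 : ℕ) := by
  have h1 : ∑ i, (a i : ℝ) * s ^ (i : ℕ) = - ∑ i, (a i : ℝ) * (r ^ (i : ℕ) - s ^ (i : ℕ)) := by
    have : ∑ i, (a i : ℝ) * (r ^ (i : ℕ) - s ^ (i : ℕ))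
        = ∑ i, (a i : ℝ) * r ^ (i : ℕ) - ∑ i, (a i : ℝ) * s ^ (i : ℕ) := by
      rw [← Finset.sum_sub_distrib]
      exact Finset.sum_congr rfl (fun i _ => by ring)
    rw [this, h0]
    ring
  rw [h1, abs_neg]
  refine (Finset.abs_sum_le_sum_abs _ _).trans ?_
  have h2 : ∀ i ∈ (Finset.univ : Finset (Fin (d + 1))),
      |(a i : ℝ) * (r ^ (i : ℕ) - s ^ (i : ℕ))| ≤ (d + 1 : ℕ) := by
    intro i _
    rw [abs_mul]
    have ha' : |(a i : ℝ)| ≤ H := by
      have := ha i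
      have h := (Int.cast_le (R := ℝ)).2 this
      push_cast at h
      exact h
    have hd : |r ^ (i : ℕ) - s ^ (i : ℕ)| ≤ (d + 1 : ℕ) * (r - s) := by
      rw [abs_of_nonneg (sub_nonneg.2 (pow_le_pow_left₀ hs hsr _))]
      refine (pow_diff hs hsr hr _).trans ?_
      have hi : ((i : ℕ) : ℝ) ≤ (d + 1 : ℕ) := by exact_mod_cast i.2.le
      exact mul_le_mul_of_nonneg_right hi (sub_nonneg.2 hsr)
    calc |(a i : ℝ)| * |r ^ (i : ℕ) - s ^ (i : ℕ)| ≤ H * ((d + 1 : ℕ) * (r - s)) :=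
          mul_le_mul ha' hd (abs_nonneg _) (Nat.cast_nonneg _)
      _ = (d + 1 : ℕ) * (H * (r - s)) := by ring
      _ ≤ (d + 1 : ℕ) * 1 := mul_le_mul_of_nonneg_left hH (Nat.cast_nonneg _)
      _ = (d + 1 : ℕ) := mul_one _
  refine (Finset.sum_le_sum h2).trans ?_
  simp only [Finset.sum_const, Finset.card_univ, Fintype.card_fin, nsmul_eq_mul]
  push_cast
  nlinarith

/-- The coefficient vectors in the box as a finite set. -/
noncomputable def box (d H : ℕ) : Finset (Fin (d + 1) → ℤ) :=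
  Fintype.piFinset (fun _ => Finset.Icc (-(H : ℤ)) H)

lemma mem_box {d H : ℕ} {a : Fin (d + 1) → ℤ} : a ∈ box d H ↔ a ∈ Box d H := by
  simp [box, Box, Fintype.mem_piFinset, abs_le]

lemma card_small (d H D : ℕ) (s : ℝ) (S : Finset (Fin (d + 1) → ℤ)) (hS : ∀ a ∈ S, a ∈ Box d H)
    (hv : ∀ a ∈ S, |∑ i, (a i : ℝ) * s ^ (i : ℕ)| ≤ D) :
    S.card ≤ (2 * H + 1) ^ d * (2 * D + 2) := by
  classical
  let f : (Fin (d + 1) → ℤ) → (Fin d → ℤ) × ℤ := fun a =>
    (fun i => a i.succ, a 0 + ⌊∑ i : Fin d, (a i.succ : ℝ) * s ^ ((i : ℕ) + 1)⌋)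
  have hcard : ((Fintype.piFinset (fun _ : Fin d => Finset.Icc (-(H : ℤ)) H)) ×ˢ
      (Finset.Icc (-(D : ℤ) - 1) D)).card = (2 * H + 1) ^ d * (2 * D + 2) := by
    rw [Finset.card_product, Fintype.card_piFinset]
    simp only [Int.card_Icc, Finset.prod_const, Finset.card_univ, Fintype.card_fin]
    congr 1
    · congr 1
      omega
    · omega
  rw [← hcard]
  apply Finset.card_le_card_of_injOn f
  · intro a ha
    rw [Finset.mem_coe] at ha
    rw [Finset.mem_coe, Finset.mem_product]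
    refine ⟨?_, ?_⟩
    · rw [Fintype.mem_piFinset]
      intro i
      have := hS a ha i.succ
      rw [abs_le] at this
      exact Finset.mem_Icc.2 this
    · have h1 := hv a ha
      rw [Fin.sum_univ_succ] at h1
      simp only [Fin.val_zero, pow_zero, mul_one, Fin.val_succ] at h1
      rw [abs_le] at h1
      have h2 := Int.floor_le (∑ i : Fin d, (a i.succ : ℝ) * s ^ ((i : ℕ) + 1))
      have h3 := Int.lt_floor_add_one (∑ i : Fin d, (a i.succ : ℝ) * s ^ ((i : ℕ) + 1))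
      rw [Finset.mem_Icc]
      simp only [f]
      constructor
      · have : ((-(D : ℤ) - 1 : ℤ) : ℝ) ≤
            ((a 0 + ⌊∑ i : Fin d, (a i.succ : ℝ) * s ^ ((i : ℕ) + 1)⌋ : ℤ) : ℝ) := by
          push_cast
          linarith [h1.1]
        exact_mod_cast this
      · have : ((a 0 + ⌊∑ i : Fin d, (a i.succ : ℝ) * s ^ ((i : ℕ) + 1)⌋ : ℤ) : ℝ)
            ≤ ((D : ℤ) : ℝ) := by
          push_cast
          linarith [h1.2]
        exact_mod_cast this
  · intro a ha a' ha' hff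
    simp only [f, Prod.mk.injEq] at hff
    have h1 : ∀ i : Fin d, a i.succ = a' i.succ := fun i => congrFun hff.1 i
    have h2 := hff.2
    simp only [h1] at h2
    have h3 : a 0 = a' 0 := by linarith
    funext i
    refine Fin.cases h3 h1 i

/-! ### The finite cover -/

/-- The finite set of coefficient vectors which covers the exceptional ones for the base `B`. -/
noncomputable def cover (d H B : ℕ) : Finset (Fin (d + 1) → ℤ) :=
  (Finset.range B).biUnion (fun W => (V B W (Nat.clog B H)).biUnion (fun v =>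
    {a ∈ box d H | |∑ i, (a i : ℝ) * ((v : ℝ) / (B : ℝ) ^ (Nat.clog B H)) ^ (i : ℕ)|
      ≤ ((d + 1) ^ 2 : ℕ)}))

lemma card_cover (d H B : ℕ) : (cover d H B).card ≤
    B * ((B - 1) ^ (Nat.clog B H) * ((2 * H + 1) ^ d * (2 * (d + 1) ^ 2 + 2))) := by
  unfold cover
  refine (Finset.card_biUnion_le_card_mul _ _
    ((B - 1) ^ (Nat.clog B H) * ((2 * H + 1) ^ d * (2 * (d + 1) ^ 2 + 2))) ?_).trans
    (by rw [Finset.card_range])
  intro W hW
  refine (Finset.card_biUnion_le_card_mul _ _ ((2 * H + 1) ^ d * (2 * (d + 1) ^ 2 + 2)) ?_).trans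
    (Nat.mul_le_mul_right _ (card_V (Finset.mem_range.1 hW) _))
  intro v _
  refine card_small d H ((d + 1) ^ 2) ((v : ℝ) / (B : ℝ) ^ (Nat.clog B H)) _ ?_ ?_
  · intro a ha
    exact mem_box.1 (Finset.mem_filter.1 ha).1
  · intro a ha
    exact (Finset.mem_filter.1 ha).2

lemma mem_cover {d H b n : ℕ} (hb : 2 ≤ b) (hn : 1 ≤ n) {a : Fin (d + 1) → ℤ}
    (ha : a ∈ Box d H) {r : ℝ} (hr0 : 0 ≤ r) (hr1 : r < 1)
    (h0 : ∑ i, (a i : ℝ) * r ^ (i : ℕ) = 0) (h : Misses b n H r) :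
    a ∈ cover d H (b ^ n) := by
  obtain ⟨W, hW, hav⟩ := exists_digit hb h
  set B := b ^ n with hBdef
  have hB : 1 < B := Nat.one_lt_pow (by omega) (by omega)
  set k := Nat.clog B H with hk
  have hv : ⌊r * (B : ℝ) ^ k⌋₊ ∈ V B W k := by
    apply mem_V (by omega) hr1
    intro l hl
    apply hav l
    exact (Nat.lt_clog_iff_pow_lt hB).1 hl |>.le
  unfold cover
  rw [Finset.mem_biUnion]
  refine ⟨W, Finset.mem_range.2 hW, ?_⟩
  rw [Finset.mem_biUnion]
  refine ⟨_, hv, ?_⟩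
  rw [Finset.mem_filter]
  refine ⟨mem_box.2 ha, ?_⟩
  have hB0 : (0 : ℝ) < (B : ℝ) ^ k := by
    have : (0 : ℝ) < B := by exact_mod_cast (by omega : 0 < B)
    positivity
  have hf1 : (⌊r * (B : ℝ) ^ k⌋₊ : ℝ) ≤ r * (B : ℝ) ^ k := Nat.floor_le (by positivity)
  have hf2 : r * (B : ℝ) ^ k < ⌊r * (B : ℝ) ^ k⌋₊ + 1 := Nat.lt_floor_add_one _
  refine value_small ha (r := r) (by positivity) ?_ hr1.le h0 ?_
  · rw [div_le_iff₀ hB0]
    exact hf1
  · have hHB : (H : ℝ) ≤ (B : ℝ) ^ k := by exact_mod_cast Nat.le_pow_clog hB H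
    have h1 : r - (⌊r * (B : ℝ) ^ k⌋₊ : ℝ) / (B : ℝ) ^ k ≤ 1 / (B : ℝ) ^ k := by
      rw [sub_le_iff_le_add, ← add_div, le_div_iff₀ hB0]
      linarith
    calc (H : ℝ) * (r - (⌊r * (B : ℝ) ^ k⌋₊ : ℝ) / (B : ℝ) ^ k)
        ≤ (H : ℝ) * (1 / (B : ℝ) ^ k) := mul_le_mul_of_nonneg_left h1 (Nat.cast_nonneg _)
      _ ≤ (B : ℝ) ^ k * (1 / (B : ℝ) ^ k) := by
          apply mul_le_mul_of_nonneg_right hHB (by positivity)
      _ = 1 := by field_simp

/-! ### Estimates -/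

lemma xlogx_pos {B : ℕ} (hB : 2 ≤ B) : 1 < (B : ℝ) * Real.log B := by
  have h1 : (2 : ℝ) ≤ B := by exact_mod_cast hB
  have h2 : Real.log 2 ≤ Real.log B := Real.log_le_log (by norm_num) h1
  have h3 := Real.log_two_gt_d9
  nlinarith

lemma pow_est {B H : ℕ} (hB : 2 ≤ B) (hH : 1 ≤ H) :
    (((B - 1) ^ (Nat.clog B H) : ℕ) : ℝ) ≤ B * (H : ℝ) ^ (1 - 1 / ((B : ℝ) * Real.log B)) := by
  set k := Nat.clog B H with hk
  have hBR : (2 : ℝ) ≤ B := by exact_mod_cast hB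
  have hHR : (1 : ℝ) ≤ H := by exact_mod_cast hH
  have hx := xlogx_pos hB
  have hlogB : 0 < Real.log B := Real.log_pos (by linarith)
  have hlogH : 0 ≤ Real.log H := Real.log_nonneg hHR
  -- `B ^ k ≤ B * H`
  have hkB : (B : ℝ) ^ k ≤ B * H := by
    have : B ^ k ≤ B * H := by
      rcases Nat.lt_or_ge 1 H with h1 | h1
      · have h2 := Nat.pow_pred_clog_lt_self (by omega : 1 < B) h1
        have h3 : 0 < k := Nat.clog_pos (by omega) (by omega)
        have h4 : B ^ k = B * B ^ (k - 1) := by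
          rw [← pow_succ']
          congr 1
          omega
        rw [h4]
        exact Nat.mul_le_mul_left _ (by simpa [hk] using h2.le)
      · have hH1 : H = 1 := by omega
        have : k = 0 := by rw [hk, hH1]; simp
        rw [this, hH1, pow_zero, mul_one]
        omega
    exact_mod_cast this
  have hlogk : k * Real.log B ≤ Real.log B + Real.log H := by
    have h1 := Real.log_le_log (by positivity) hkB
    rw [Real.log_pow, Real.log_mul (by positivity) (by positivity)] at h1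
    exact h1
  have hlog1 : Real.log ((B : ℝ) - 1) ≤ Real.log B - 1 / B := by
    have h1 : (B : ℝ) - 1 = B * (1 - 1 / B) := by field_simp
    rw [h1, Real.log_mul (by positivity) (by
      have : (1 : ℝ) / B ≤ 1 / 2 := one_div_le_one_div_of_le (by norm_num) hBR
      linarith)]
    have h2 : Real.log (1 - 1 / (B : ℝ)) ≤ (1 - 1 / (B : ℝ)) - 1 := Real.log_le_sub_one_of_pos (by
      have : (1 : ℝ) / B ≤ 1 / 2 := one_div_le_one_div_of_le (by norm_num) hBR
      linarith)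
    linarith
  have hcast : (((B - 1) ^ k : ℕ) : ℝ) = Real.exp (k * Real.log ((B : ℝ) - 1)) := by
    rw [mul_comm, ← Real.rpow_def_of_pos (by linarith), Real.rpow_natCast]
    push_cast [Nat.cast_sub (by omega : 1 ≤ B)]
    rfl
  rw [hcast, Real.rpow_def_of_pos (by linarith)]
  have hBexp : (B : ℝ) * Real.exp (Real.log H * (1 - 1 / ((B : ℝ) * Real.log B)))
      = Real.exp (Real.log B + Real.log H * (1 - 1 / ((B : ℝ) * Real.log B))) := by
    rw [Real.exp_add, Real.exp_log (by linarith)]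
  rw [hBexp, Real.exp_le_exp]
  have h5 : (k : ℝ) * Real.log ((B : ℝ) - 1) ≤ k * (Real.log B - 1 / B) :=
    mul_le_mul_of_nonneg_left hlog1 (Nat.cast_nonneg _)
  have h6 : (k : ℝ) * (Real.log B - 1 / B)
      = (k * Real.log B) * (1 - 1 / ((B : ℝ) * Real.log B)) := by
    field_simp
  have h7 : (0 : ℝ) ≤ 1 - 1 / ((B : ℝ) * Real.log B) := by
    have : 1 / ((B : ℝ) * Real.log B) ≤ 1 := by
      rw [div_le_one (by linarith)]
      exact hx.le
    linarith
  have h8 : (k * Real.log B) * (1 - 1 / ((B : ℝ) * Real.log B))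
      ≤ (Real.log B + Real.log H) * (1 - 1 / ((B : ℝ) * Real.log B)) :=
    mul_le_mul_of_nonneg_right hlogk h7
  have h9 : Real.log B * (1 - 1 / ((B : ℝ) * Real.log B)) ≤ Real.log B := by
    have : 0 ≤ 1 / ((B : ℝ) * Real.log B) := by positivity
    nlinarith
  linarith

lemma pow_est' {B K H : ℕ} (hB : 2 ≤ B) (hBK : B ≤ K) (hH : 1 ≤ H) :
    (((B - 1) ^ (Nat.clog B H) : ℕ) : ℝ) ≤ K * (H : ℝ) ^ (1 - 1 / ((K : ℝ) * Real.log K)) := by
  refine (pow_est hB hH).trans ?_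
  have hBR : (2 : ℝ) ≤ B := by exact_mod_cast hB
  have hHR : (1 : ℝ) ≤ H := by exact_mod_cast hH
  have hKR : (B : ℝ) ≤ K := by exact_mod_cast hBK
  have hlogB : 0 < Real.log B := Real.log_pos (by linarith)
  have h1 : (B : ℝ) * Real.log B ≤ K * Real.log K :=
    mul_le_mul hKR (Real.log_le_log (by linarith) hKR) hlogB.le (by linarith)
  apply mul_le_mul hKR _ (by positivity) (by positivity)
  apply Real.rpow_le_rpow_of_exponent_le hHR
  have := one_div_le_one_div_of_le (by positivity) h1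
  linarith

/-- The union of the covers for all bases `B` with `2 ≤ B ≤ K`. -/
noncomputable def bigCover (d H K : ℕ) : Finset (Fin (d + 1) → ℤ) :=
  (Finset.Icc 2 K).biUnion (fun B => cover d H B)

lemma card_bigCover {d H K : ℕ} (hH : 1 ≤ H) :
    ((bigCover d H K).card : ℝ) ≤ (3 ^ d * (2 * (d + 1) ^ 2 + 2) : ℝ) * K ^ 3 *
      (H : ℝ) ^ ((d : ℝ) + 1 - 1 / ((K : ℝ) * Real.log K)) := by
  have hHR : (1 : ℝ) ≤ H := by exact_mod_cast hH
  have h1 : ((bigCover d H K).card : ℝ) ≤ ∑ B ∈ Finset.Icc 2 K, ((cover d H B).card : ℝ) := by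
    exact_mod_cast Finset.card_biUnion_le
  set E : ℝ := (H : ℝ) ^ (1 - 1 / ((K : ℝ) * Real.log K)) with hE
  have hE0 : 0 ≤ E := by positivity
  have h2 : ∀ B ∈ Finset.Icc 2 K, ((cover d H B).card : ℝ) ≤
      K * ((K * E) * ((3 * H) ^ d * (2 * (d + 1) ^ 2 + 2))) := by
    intro B hB
    rw [Finset.mem_Icc] at hB
    have h3 : ((cover d H B).card : ℝ) ≤
        ((B * ((B - 1) ^ (Nat.clog B H) * ((2 * H + 1) ^ d * (2 * (d + 1) ^ 2 + 2))) : ℕ) : ℝ) := by
      exact_mod_cast card_cover d H B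
    refine h3.trans ?_
    rw [Nat.cast_mul, Nat.cast_mul, Nat.cast_mul]
    have hBK : (B : ℝ) ≤ K := by exact_mod_cast hB.2
    have h4 := pow_est' hB.1 hB.2 hH
    have h5 : (((2 * H + 1) ^ d : ℕ) : ℝ) ≤ (3 * H) ^ d := by
      push_cast
      exact pow_le_pow_left₀ (by positivity) (by linarith) _
    have h6 : ((2 * (d + 1) ^ 2 + 2 : ℕ) : ℝ) = 2 * ((d : ℝ) + 1) ^ 2 + 2 := by push_cast; ring
    rw [h6]
    apply mul_le_mul hBK _ (by positivity) (by positivity)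
    apply mul_le_mul h4 _ (by positivity) (by positivity)
    exact mul_le_mul_of_nonneg_right h5 (by positivity)
  refine (h1.trans (Finset.sum_le_sum h2)).trans ?_
  rw [Finset.sum_const, nsmul_eq_mul]
  have h7 : ((Finset.Icc 2 K).card : ℝ) ≤ K := by
    have : (Finset.Icc 2 K).card ≤ K := by
      rw [Nat.card_Icc]
      omega
    exact_mod_cast this
  have h8 : (H : ℝ) ^ ((d : ℝ) + 1 - 1 / ((K : ℝ) * Real.log K)) = (H : ℝ) ^ d * E := by
    rw [hE, ← Real.rpow_natCast, ← Real.rpow_add (by linarith)]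
    congr 1
    ring
  rw [h8]
  calc ((Finset.Icc 2 K).card : ℝ) * (K * ((K * E) * ((3 * H) ^ d * (2 * (d + 1) ^ 2 + 2))))
      ≤ K * (K * ((K * E) * ((3 * H) ^ d * (2 * (d + 1) ^ 2 + 2)))) :=
        mul_le_mul_of_nonneg_right h7 (by positivity)
    _ = (3 ^ d * (2 * (d + 1) ^ 2 + 2) : ℝ) * K ^ 3 * ((H : ℝ) ^ d * E) := by
        rw [mul_pow]
        ring

/-- **Almost all integer polynomials have only rich roots.**  For every `d` there is `C` such that
for all `K ≥ 2` and `H ≥ 1` the following holds for all but at most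
`C K³ H^(d + 1 - 1/(K log K))` of the polynomials `a_0 + a_1 X + ... + a_d X^d` with integer
coefficients at most `H` in absolute value: for every root `r ∈ [0,1)`, every base `b ≥ 2` and every
length `n ≥ 1` with `b ^ n ≤ K`, all `b ^ n` words of length `n` over `{0, ..., b-1}` are of the form
`a_{i+1} ... a_{i+n}` with `b ^ i ≤ H`, where `a_1 a_2 ...` is the base-`b` expansion of `r`; in
particular `p(n) = b ^ n`. -/
theorem result (d : ℕ) : ∃ C : ℝ, 0 < C ∧ ∀ K H : ℕ, 2 ≤ K → 1 ≤ H →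
    ∃ E : Finset (Fin (d + 1) → ℤ),
      (E.card : ℝ) ≤ C * K ^ 3 * (H : ℝ) ^ ((d : ℝ) + 1 - 1 / ((K : ℝ) * Real.log K)) ∧
      ∀ a : Fin (d + 1) → ℤ, (∀ i, |a i| ≤ (H : ℤ)) → a ∉ E →
        ∀ r : ℝ, 0 ≤ r → r < 1 → ∑ i, (a i : ℝ) * r ^ (i : ℕ) = 0 →
          ∀ b n : ℕ, 2 ≤ b → 1 ≤ n → b ^ n ≤ K →
            ∀ w : Fin n → ℕ, (∀ j, w j < b) →
              ∃ i : ℕ, b ^ i ≤ H ∧ ∀ j : Fin n, digit b r (i + (j : ℕ)) = w j := by
  refine ⟨3 ^ d * (2 * (d + 1) ^ 2 + 2), by positivity, ?_⟩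
  intro K H _ hH
  refine ⟨bigCover d H K, card_bigCover hH, ?_⟩
  intro a ha haE r hr0 hr1 h0 b n hb hn hbn w hw
  by_contra hcon
  push Not at hcon
  apply haE
  unfold bigCover
  rw [Finset.mem_biUnion]
  refine ⟨b ^ n, ?_, mem_cover hb hn ha hr0 hr1 h0 ⟨w, hw, hcon⟩⟩
  rw [Finset.mem_Icc]
  refine ⟨?_, hbn⟩
  calc 2 ≤ b := hb
    _ = b ^ 1 := (pow_one b).symm
    _ ≤ b ^ n := Nat.pow_le_pow_right (by omega) hn

end Pool.Agent.Results.MP_a78fe8_nt.AlmostAllPolynomials
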