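import Pool.Agent.H91.DG.Final

namespace Pool.Agent.Results.MP_a78fe8_nt.DigitsLargeBase

open Pool.Agent.H91.DG

/-- **The number of distinct digits of an algebraic irrational number tends to infinity with the
base.**  For all `D, A, C, K` there is `B` such that for every base `b ≥ B` and every irrational
`r ∈ [0,1)` which is a root of a nonzero integer polynomial of degree at most `D` with coefficients
of absolute value at most `b ^ A`, more than `C` distinct integers occur among the base-`b` digits
of `r` number `K + 1, ..., B` (digit number `k + 1` is `dig b r k = ⌊r * b ^ (k + 1)⌋ % b`). -/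
theorem result (D A C K : ℕ) : ∃ B : ℕ, ∀ b : ℕ, B ≤ b → ∀ r : ℝ, 0 ≤ r → r < 1 →
    Irrational r → (∃ P : Polynomial ℤ, P ≠ 0 ∧ P.natDegree ≤ D ∧
      (∀ i, |P.coeff i| ≤ (b : ℤ) ^ A) ∧ Polynomial.aeval r P = 0) →
    C < ((Finset.Ico K B).image (dig b r)).card :=
  final D A C K

end Pool.Agent.Results.MP_a78fe8_nt.DigitsLargeBase
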