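import Mathlib
import Pool.Agent.H94.ZeroRunsDefs
import Pool.Agent.H94.ZeroRunsProof

open Pool.Agent.H94.ZeroRuns

namespace Pool.Agent.Results.MP_a78fe8_nt.ZeroRunReduction

/-- **Reduction of Q1, base by base, to runs of the digit `0`.**  For every base `b ≥ 2` the
following are equivalent:
1. (Q1 for the base `b`) every irrational algebraic number in `[0,1)` has full subword complexity
   `p(n) = b^n` for all `n ≥ 1`;
2. the base-`b` expansion of every irrational algebraic number contains arbitrarily long blocks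
   `0^L`;
3. for every `k ≥ 1`, the base-`b^k` expansion of every irrational algebraic number contains the
   digit `0`. -/
theorem result (b : ℕ) (hb : 2 ≤ b) :
    List.TFAE [
      ∀ r ∈ AlgIrr, ∀ n : ℕ, 1 ≤ n → complexity b r n = b ^ n,
      ∀ r ∈ AlgIrr, ∀ L : ℕ, ∃ i : ℕ, ∀ j < L, digit b r (i + j) = 0,
      ∀ r ∈ AlgIrr, ∀ k : ℕ, 1 ≤ k → ∃ i : ℕ, digit (b ^ k) r i = 0] := by
  tfae_have 1 ↔ 2 := zero_runs_iff b hb
  tfae_have 2 ↔ 3 := digit_zero_iff b hb
  tfae_finish

end Pool.Agent.Results.MP_a78fe8_nt.ZeroRunReduction
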